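import Pool.Agent.W47.TM.Defs

/-! Project TM, part INTG: denominators and size of the coefficients. -/

set_option autoImplicit false

namespace Pool.Agent.W451.TM

open Finset Polynomial Pool.Agent.W47.TM

/-- the geometric series -/
noncomputable def G : PowerSeries ℤ := PowerSeries.mk 1

lemma G_nonneg (M m : ℕ) : 0 ≤ PowerSeries.coeff m (G ^ M) := by
  induction M generalizing m with
  | zero =>
    rw [pow_zero, PowerSeries.coeff_one]
    split_ifs <;> norm_num
  | succ M ih =>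
    rw [pow_succ, PowerSeries.coeff_mul]
    refine Finset.sum_nonneg (fun x _ => mul_nonneg (ih _) ?_)
    unfold G
    rw [PowerSeries.coeff_mk]
    norm_num

lemma G_le (M m : ℕ) : PowerSeries.coeff m (G ^ M) ≤ 2 ^ (M + m) := by
  cases M with
  | zero =>
    rw [pow_zero, PowerSeries.coeff_one]
    split_ifs
    · exact one_le_pow₀ (by norm_num)
    · positivity
  | succ d =>
    unfold G
    rw [PowerSeries.mk_one_pow_eq_mk_choose_add, PowerSeries.coeff_mk]
    have h : (d + m).choose d ≤ 2 ^ (d + m) := Nat.choose_le_two_pow _ _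
    have h2 : (2 : ℤ) ^ (d + m) ≤ 2 ^ (d + 1 + m) :=
      pow_le_pow_right₀ (by norm_num) (by omega)
    calc (((d + m).choose d : ℕ) : ℤ) ≤ ((2 ^ (d + m) : ℕ) : ℤ) := by exact_mod_cast h
      _ = 2 ^ (d + m) := by push_cast; rfl
      _ ≤ _ := h2

/-- integrality and domination -/
def Dom (L M : ℕ) (f : PowerSeries ℚ) : Prop :=
  ∀ m, ∃ z : ℤ, (L : ℚ) ^ m * PowerSeries.coeff m f = z ∧
    |z| ≤ (L : ℤ) ^ m * PowerSeries.coeff m (G ^ M)

lemma Dom_one (L : ℕ) : Dom L 0 1 := by
  intro m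
  rw [pow_zero]
  cases m with
  | zero => exact ⟨1, by simp, by simp⟩
  | succ m => exact ⟨0, by simp [PowerSeries.coeff_one], by simp [PowerSeries.coeff_one]⟩

lemma Dom_mul {L M M' : ℕ} {f g : PowerSeries ℚ} (hf : Dom L M f) (hg : Dom L M' g) :
    Dom L (M + M') (f * g) := by
  intro m
  choose zf hzf1 hzf2 using hf
  choose zg hzg1 hzg2 using hg
  refine ⟨∑ x ∈ antidiagonal m, zf x.1 * zg x.2, ?_, ?_⟩
  · rw [PowerSeries.coeff_mul, Finset.mul_sum]
    push_cast
    refine Finset.sum_congr rfl (fun x hx => ?_)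
    rw [Finset.HasAntidiagonal.mem_antidiagonal] at hx
    rw [← hzf1, ← hzg1, ← hx, pow_add]
    ring
  · refine (Finset.abs_sum_le_sum_abs _ _).trans ?_
    rw [pow_add, PowerSeries.coeff_mul, Finset.mul_sum]
    refine Finset.sum_le_sum (fun x hx => ?_)
    rw [Finset.HasAntidiagonal.mem_antidiagonal] at hx
    rw [abs_mul]
    have h1 := mul_le_mul (hzf2 x.1) (hzg2 x.2) (abs_nonneg _)
      (mul_nonneg (by positivity) (G_nonneg _ _))
    refine h1.trans (le_of_eq ?_)
    rw [← hx, pow_add]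
    ring

lemma Dom_pow {L M : ℕ} {f : PowerSeries ℚ} (hf : Dom L M f) (e : ℕ) : Dom L (e * M) (f ^ e) := by
  induction e with
  | zero =>
    rw [Nat.zero_mul, pow_zero]
    exact Dom_one L
  | succ e ih =>
    rw [pow_succ, Nat.succ_mul]
    exact Dom_mul ih hf

lemma Dom_prod {L : ℕ} (S : Finset ℕ) (f : ℕ → PowerSeries ℚ) (M : ℕ → ℕ)
    (h : ∀ l ∈ S, Dom L (M l) (f l)) : Dom L (∑ l ∈ S, M l) (∏ l ∈ S, f l) := by
  induction S using Finset.induction_on with
  | empty =>
    rw [Finset.sum_empty, Finset.prod_empty]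
    exact Dom_one L
  | insert a S ha ih =>
    rw [Finset.sum_insert ha, Finset.prod_insert ha]
    exact Dom_mul (h a (Finset.mem_insert_self _ _))
      (ih (fun l hl => h l (Finset.mem_insert_of_mem hl)))

/-- `(1 + X / d)⁻¹` -/
noncomputable def U (d : ℤ) : PowerSeries ℚ := PowerSeries.mk (fun m => (-1 / (d : ℚ)) ^ m)

lemma inv_eq (d : ℤ) (hd : d ≠ 0) : (PowerSeries.C (d : ℚ) + PowerSeries.X)⁻¹ =
    PowerSeries.C ((d : ℚ)⁻¹) * U d := by
  have hd' : (d : ℚ) ≠ 0 := by exact_mod_cast hd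
  rw [PowerSeries.inv_eq_iff_mul_eq_one (by simp [hd'])]
  ext m
  rw [mul_assoc, PowerSeries.coeff_C_mul, mul_add, map_add, mul_comm (U d) (PowerSeries.C _),
    PowerSeries.coeff_C_mul]
  cases m with
  | zero =>
    rw [PowerSeries.coeff_zero_mul_X]
    simp [U, hd']
  | succ m =>
    rw [PowerSeries.coeff_succ_mul_X, PowerSeries.coeff_one, if_neg (by omega)]
    unfold U
    rw [PowerSeries.coeff_mk, PowerSeries.coeff_mk, pow_succ]
    field_simp
    ring

lemma Dom_U {L : ℕ} (d : ℤ) (hd : d ≠ 0) (hdL : d ∣ (L : ℤ)) : Dom L 1 (U d) := by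
  obtain ⟨c, hc⟩ := hdL
  have hd' : (d : ℚ) ≠ 0 := by exact_mod_cast hd
  intro m
  refine ⟨(-c) ^ m, ?_, ?_⟩
  · unfold U
    rw [PowerSeries.coeff_mk, ← mul_pow]
    push_cast
    congr 1
    have : (L : ℚ) = (d : ℚ) * c := by exact_mod_cast hc
    rw [this]
    field_simp
  · rw [pow_one]
    unfold G
    rw [PowerSeries.coeff_mk, Pi.one_apply, mul_one, abs_pow, abs_neg]
    refine pow_le_pow_left₀ (abs_nonneg _) ?_ m
    have h1 : |(L : ℤ)| = |d| * |c| := by rw [hc, abs_mul]
    have h2 : (1 : ℤ) ≤ |d| := Int.one_le_abs hd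
    rw [Nat.abs_cast] at h1
    rw [h1]
    nlinarith [abs_nonneg c]

/-- the product of the differences -/
lemma W_eq (k m : ℕ) : ∏ l ∈ (range (k + m + 1)).erase k, ((k : ℚ) - (l : ℚ)) =
    (-1) ^ m * (k.factorial : ℚ) * (m.factorial : ℚ) := by
  induction m with
  | zero =>
    have h1 : (range (k + 0 + 1)).erase k = range k := by
      ext x
      rw [Finset.mem_erase, Finset.mem_range, Finset.mem_range]
      omega
    rw [h1]
    have h2 : ∀ k : ℕ, ∏ l ∈ range k, ((k : ℚ) - (l : ℚ)) = (k.factorial : ℚ) := by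
      intro k
      induction k with
      | zero => simp
      | succ k ih =>
        rw [Finset.prod_range_succ']
        have h3 : ∏ i ∈ range k, (((k + 1 : ℕ) : ℚ) - ((i + 1 : ℕ) : ℚ)) =
            ∏ i ∈ range k, ((k : ℚ) - (i : ℚ)) := by
          refine Finset.prod_congr rfl (fun i _ => ?_)
          push_cast
          ring
        rw [h3, ih, Nat.factorial_succ]
        push_cast
        ring
    rw [h2]
    simp
  | succ m ih =>
    have h1 : (range (k + (m + 1) + 1)).erase k = insert (k + m + 1) ((range (k + m + 1)).erase k) := by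
      ext x
      rw [Finset.mem_erase, Finset.mem_range, Finset.mem_insert, Finset.mem_erase, Finset.mem_range]
      omega
    rw [h1, Finset.prod_insert (by
      rw [Finset.mem_erase, Finset.mem_range]
      omega), ih, Nat.factorial_succ]
    push_cast
    ring

theorem intg : S_INTG := by
  intro n N h k hN hh hk j
  by_cases hj : j < ex N h k
  swap
  · refine ⟨0, ?_, ?_⟩
    · have : (A n N h k).coeff j = 0 := by
        unfold A
        rw [Polynomial.finsetSum_coeff]
        refine Finset.sum_eq_zero (fun i hi => ?_)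
        rw [Finset.mem_range] at hi
        rw [Polynomial.coeff_C_mul_X_pow, if_neg (by omega)]
      rw [this]
      simp
    · rw [abs_zero]
      exact Int.natCast_nonneg _
  have hcoef : (A n N h k).coeff j = co n N h k j / (j.factorial : ℚ) := by
    unfold A
    rw [Polynomial.finsetSum_coeff, Finset.sum_eq_single j]
    · rw [Polynomial.coeff_C_mul_X_pow, if_pos rfl]
    · intro b _ hb
      rw [Polynomial.coeff_C_mul_X_pow, if_neg (fun h => hb h.symm)]
    · intro hnot
      exact absurd (Finset.mem_range.mpr hj) hnot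
  have hexN : ex N h k ≤ N + 1 := by
    unfold ex
    split_ifs <;> omega
  have hjN : j ≤ N := by omega
  set i := ex N h k - 1 - j with hi
  have hiN : i ≤ N := by omega
  set L := Nat.lcmUpto n with hL
  have hLpos : 0 < L := Nat.lcmUpto_pos n
  have hdvd : ∀ d : ℕ, 1 ≤ d → d ≤ n → d ∣ L := by
    intro d h1 h2
    rw [hL]
    unfold Nat.lcmUpto
    exact Finset.dvd_lcm (f := id) (Finset.mem_Icc.mpr ⟨h1, h2⟩)
  set S := (range (n + 1)).erase k with hS
  have hSk : ∀ l ∈ S, l ≠ k ∧ l ≤ n := by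
    intro l hl
    rw [hS, Finset.mem_erase, Finset.mem_range] at hl
    exact ⟨hl.1, by omega⟩
  have hdne : ∀ l ∈ S, ((k : ℤ) - (l : ℤ)) ≠ 0 := by
    intro l hl
    have := (hSk l hl).1
    omega
  have hddvd : ∀ l ∈ S, ((k : ℤ) - (l : ℤ)) ∣ (L : ℤ) := by
    intro l hl
    have h1 := hSk l hl
    rw [← Int.natAbs_dvd, Int.natCast_dvd_natCast]
    refine hdvd _ ?_ ?_
    · have := hdne l hl
      omega
    · omega
  -- the series
  have hser : ser n N h k = PowerSeries.C (∏ l ∈ S, (((k : ℚ) - (l : ℚ))⁻¹) ^ ex N h l) *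
      ∏ l ∈ S, U ((k : ℤ) - (l : ℤ)) ^ ex N h l := by
    unfold ser
    rw [map_prod, ← Finset.prod_mul_distrib]
    refine Finset.prod_congr rfl (fun l hl => ?_)
    have h1 := inv_eq ((k : ℤ) - (l : ℤ)) (hdne l hl)
    push_cast at h1
    rw [h1, mul_pow, map_pow]
  have hco : co n N h k j = (∏ l ∈ S, (((k : ℚ) - (l : ℚ))⁻¹) ^ ex N h l) *
      PowerSeries.coeff i (∏ l ∈ S, U ((k : ℤ) - (l : ℤ)) ^ ex N h l) := by
    unfold co
    rw [hser, PowerSeries.coeff_C_mul]
  have hdom := Dom_prod (L := L) S (fun l => U ((k : ℤ) - (l : ℤ)) ^ ex N h l)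
    (fun l => ex N h l * 1) (fun l hl => Dom_pow (Dom_U _ (hdne l hl) (hddvd l hl)) _)
  obtain ⟨z1, hz1, hz1b⟩ := hdom i
  -- the exponents
  have hsum : ∑ l ∈ S, ex N h l * 1 + i ≤ (n + 1) * N := by
    have h1 : ∑ l ∈ S, ex N h l * 1 = n * N + if h = k then 0 else 1 := by
      simp only [mul_one, ex]
      rw [Finset.sum_add_distrib, Finset.sum_const, Finset.sum_ite_eq']
      have hcard : S.card = n := by
        rw [hS, Finset.card_erase_of_mem (Finset.mem_range.mpr (by omega)), Finset.card_range]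
        omega
      rw [hcard, smul_eq_mul]
      congr 1
      by_cases hhk : h = k
      · rw [if_pos hhk, if_neg]
        rw [hS, hhk]
        exact Finset.notMem_erase _ _
      · rw [if_neg hhk, if_pos]
        rw [hS, Finset.mem_erase, Finset.mem_range]
        exact ⟨hhk, by omega⟩
    rw [h1]
    have h2 : ex N h k = N + if k = h then 1 else 0 := rfl
    have h3 : (n + 1) * N = n * N + N := by ring
    rw [h3]
    by_cases hhk : h = k
    · rw [if_pos hhk.symm] at h2
      rw [if_pos hhk]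
      omega
    · rw [if_neg (fun e => hhk e.symm)] at h2
      rw [if_neg hhk]
      omega
  have hz1c : |z1| ≤ (L : ℤ) ^ i * 2 ^ ((n + 1) * N) := by
    refine hz1b.trans (mul_le_mul_of_nonneg_left ?_ (by positivity))
    refine (G_le _ _).trans ?_
    exact pow_le_pow_right₀ (by norm_num) hsum
  -- the product of the differences
  obtain ⟨m, hm⟩ : ∃ m, n = k + m := ⟨n - k, by omega⟩
  have hW := W_eq k m
  rw [← hm, ← hS] at hW
  set δ : ℤ := if h = k then 1 else (k : ℤ) - (h : ℤ) with hδ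
  have hδdvd : δ ∣ (L : ℤ) := by
    rw [hδ]
    split_ifs with hhk
    · exact one_dvd _
    · refine hddvd h ?_
      rw [hS, Finset.mem_erase, Finset.mem_range]
      exact ⟨hhk, by omega⟩
  have hδ0 : δ ≠ 0 := by
    rw [hδ]
    split_ifs with hhk
    · exact one_ne_zero
    · omega
  obtain ⟨c, hc⟩ := hδdvd
  have hprodinv : ∏ l ∈ S, (((k : ℚ) - (l : ℚ))⁻¹) ^ ex N h l =
      ((∏ l ∈ S, ((k : ℚ) - (l : ℚ))) ^ N)⁻¹ * ((δ : ℚ))⁻¹ := by
    simp only [ex, pow_add]
    rw [Finset.prod_mul_distrib, Finset.prod_pow, Finset.prod_inv_distrib, inv_pow]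
    congr 1
    rw [hδ]
    by_cases hhk : h = k
    · rw [if_pos hhk]
      rw [Finset.prod_eq_one]
      · simp
      · intro l hl
        rw [if_neg, pow_zero]
        rw [hhk]
        exact (hSk l hl).1
    · rw [if_neg hhk, Finset.prod_eq_single h]
      · rw [if_pos rfl, pow_one]
        push_cast
        rfl
      · intro l _ hl
        rw [if_neg hl, pow_zero]
      · intro hnot
        exfalso
        apply hnot
        rw [hS, Finset.mem_erase, Finset.mem_range]
        exact ⟨hhk, by omega⟩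
  have hnfac : (n.factorial : ℚ) = (n.choose k : ℚ) * (k.factorial : ℚ) * (m.factorial : ℚ) := by
    have := Nat.choose_mul_factorial_mul_factorial hk
    have hmk : n - k = m := by omega
    rw [hmk] at this
    exact_mod_cast this.symm
  set z2 : ℤ := ((-1) ^ m * (n.choose k : ℤ)) ^ N * c with hz2
  have hz2eq : (n.factorial : ℚ) ^ N * (L : ℚ) *
      (∏ l ∈ S, (((k : ℚ) - (l : ℚ))⁻¹) ^ ex N h l) = (z2 : ℚ) := by
    rw [hprodinv, hW, hnfac, hz2]
    have h1 : (L : ℚ) = (δ : ℚ) * c := by exact_mod_cast hc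
    have h2 : (δ : ℚ) ≠ 0 := by exact_mod_cast hδ0
    have h3 : (k.factorial : ℚ) ≠ 0 := by exact_mod_cast Nat.factorial_ne_zero k
    have h4 : (m.factorial : ℚ) ≠ 0 := by exact_mod_cast Nat.factorial_ne_zero m
    have h5 : ((-1 : ℚ) ^ m) * ((-1 : ℚ) ^ m) = 1 := by
      rw [← mul_pow]
      norm_num
    have h6 : ((-1 : ℚ) ^ m) ≠ 0 := by
      intro hz
      rw [hz, zero_mul] at h5
      exact zero_ne_one h5
    rw [h1]
    push_cast
    have h7 : ((n.choose k : ℚ) * (k.factorial : ℚ) * (m.factorial : ℚ)) =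
        ((-1) ^ m * (n.choose k : ℚ)) * ((-1) ^ m * (k.factorial : ℚ) * (m.factorial : ℚ)) := by
      calc ((n.choose k : ℚ) * (k.factorial : ℚ) * (m.factorial : ℚ)) =
          (((-1 : ℚ) ^ m) * ((-1 : ℚ) ^ m)) * ((n.choose k : ℚ) * (k.factorial : ℚ) *
            (m.factorial : ℚ)) := by rw [h5, one_mul]
        _ = _ := by ring
    rw [h7, mul_pow]
    have h8 : ((-1 : ℚ) ^ m * (k.factorial : ℚ) * (m.factorial : ℚ)) ^ N ≠ 0 :=
      pow_ne_zero _ (mul_ne_zero (mul_ne_zero h6 h3) h4)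
    field_simp
  have hz2b : |z2| ≤ 2 ^ (n * N) * (L : ℤ) := by
    rw [hz2, abs_mul, abs_pow, abs_mul, abs_pow, abs_neg, abs_one, one_pow, one_mul, Nat.abs_cast]
    have h1 : ((n.choose k : ℕ) : ℤ) ≤ 2 ^ n := by
      have := Nat.choose_le_two_pow n k
      exact_mod_cast this
    have h2 : ((n.choose k : ℕ) : ℤ) ^ N ≤ 2 ^ (n * N) := by
      rw [pow_mul]
      exact pow_le_pow_left₀ (Int.natCast_nonneg _) h1 N
    have h3 : |c| ≤ (L : ℤ) := by
      have h4 : |(L : ℤ)| = |δ| * |c| := by rw [hc, abs_mul]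
      rw [Nat.abs_cast] at h4
      have h5 : (1 : ℤ) ≤ |δ| := Int.one_le_abs hδ0
      rw [h4]
      nlinarith [abs_nonneg c]
    exact mul_le_mul h2 h3 (abs_nonneg _) (by positivity)
  -- the factorials
  obtain ⟨f, hf⟩ := Nat.factorial_dvd_factorial hjN
  have hfle : f ≤ N.factorial := by
    have := Nat.factorial_pos j
    rw [hf]
    exact Nat.le_mul_of_pos_left f this
  refine ⟨(f : ℤ) * z2 * z1 * (L : ℤ) ^ (N - i), ?_, ?_⟩
  · rw [hcoef, hco]
    unfold Dn
    have h1 : (L : ℚ) ^ (N + 1) = (L : ℚ) * (L : ℚ) ^ i * (L : ℚ) ^ (N - i) := by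
      rw [← pow_succ', ← pow_add]
      congr 1
      omega
    have h2 : (j.factorial : ℚ) ≠ 0 := by exact_mod_cast Nat.factorial_ne_zero j
    push_cast
    rw [← hz2eq, ← hz1, ← hL, h1]
    have h3 : (N.factorial : ℚ) = (j.factorial : ℚ) * (f : ℚ) := by exact_mod_cast hf
    rw [h3]
    field_simp
  · rw [abs_mul, abs_mul, abs_mul, abs_pow, Nat.abs_cast, Nat.abs_cast]
    have h1 : (f : ℤ) ≤ (N.factorial : ℤ) := by exact_mod_cast hfle
    have h2 : (f : ℤ) * |z2| ≤ (N.factorial : ℤ) * (2 ^ (n * N) * (L : ℤ)) :=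
      mul_le_mul h1 hz2b (abs_nonneg _) (by positivity)
    have h3 : (f : ℤ) * |z2| * |z1| ≤ (N.factorial : ℤ) * (2 ^ (n * N) * (L : ℤ)) *
        ((L : ℤ) ^ i * 2 ^ ((n + 1) * N)) :=
      mul_le_mul h2 hz1c (abs_nonneg _) (by positivity)
    have h4 : (f : ℤ) * |z2| * |z1| * (L : ℤ) ^ (N - i) ≤
        (N.factorial : ℤ) * (2 ^ (n * N) * (L : ℤ)) * ((L : ℤ) ^ i * 2 ^ ((n + 1) * N)) *
          (L : ℤ) ^ (N - i) := mul_le_mul_of_nonneg_right h3 (by positivity)
    refine h4.trans (le_of_eq ?_)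
    have h5 : (L : ℤ) ^ (N + 1) = (L : ℤ) * (L : ℤ) ^ i * (L : ℤ) ^ (N - i) := by
      rw [← pow_succ', ← pow_add]
      congr 1
      omega
    push_cast
    rw [h5]
    ring

end Pool.Agent.W451.TM
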